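import Mathlib

set_option autoImplicit false

namespace Pool.Agent.Results.MP_83445a_co.ThreeTranslates

/-- The step of a 3-colouring `c` of the integers from `n` to `n + s`, lifted to `1` or `-1`. -/
def del (c : ℤ → ZMod 3) (s n : ℤ) : ℤ := if c (n + s) = c n + 1 then 1 else -1

/-- Sum of the lifted steps along the path that starts at `n` and has the listed jumps. -/
def walk (c : ℤ → ZMod 3) : List ℤ → ℤ → ℤ
  | [], _ => 0
  | s :: w, n => del c s n + walk c w (n + s)

lemma del_cases (c : ℤ → ZMod 3) (s n : ℤ) : del c s n = 1 ∨ del c s n = -1 := by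
  unfold del; split_ifs <;> simp

lemma zmod3_cases : ∀ x : ZMod 3, x ≠ 0 → x = 1 ∨ x = -1 := by decide

lemma del_cast (c : ℤ → ZMod 3) (s n : ℤ) (h : c (n + s) ≠ c n) :
    ((del c s n : ℤ) : ZMod 3) = c (n + s) - c n := by
  have h1 := zmod3_cases (c (n + s) - c n) (sub_ne_zero.mpr h)
  unfold del
  split_ifs with h2
  · rw [h2]; simp
  · rcases h1 with h1 | h1
    · exact absurd (by rw [← h1]; ring) h2
    · rw [h1]; simp

lemma eq_of_cast {a b : ℤ} (h : (a : ZMod 3) = (b : ZMod 3)) (h2 : a % 2 = b % 2)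
    (h3 : |a - b| < 6) : a = b := by
  rw [ZMod.intCast_eq_intCast_iff, Int.modEq_iff_dvd] at h
  rw [abs_lt] at h3
  push_cast at h
  omega

lemma cocycle (c : ℤ → ZMod 3) (s t n : ℤ) (hs : ∀ n, c (n + s) ≠ c n)
    (ht : ∀ n, c (n + t) ≠ c n) :
    del c s n + del c t (n + s) = del c t n + del c s (n + t) := by
  apply eq_of_cast
  · push_cast
    rw [del_cast c s n (hs n), del_cast c t (n + s) (ht _), del_cast c t n (ht n),
      del_cast c s (n + t) (hs _)]
    rw [show n + s + t = n + t + s by ring]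
    ring
  · rcases del_cases c s n with h1 | h1 <;> rcases del_cases c t (n + s) with h2 | h2 <;>
    rcases del_cases c t n with h3 | h3 <;> rcases del_cases c s (n + t) with h4 | h4 <;>
    rw [h1, h2, h3, h4] <;> norm_num
  · rcases del_cases c s n with h1 | h1 <;> rcases del_cases c t (n + s) with h2 | h2 <;>
    rcases del_cases c t n with h3 | h3 <;> rcases del_cases c s (n + t) with h4 | h4 <;>
    rw [h1, h2, h3, h4] <;> norm_num

lemma walk_shift (c : ℤ → ZMod 3) (t : ℤ) (ht : ∀ n, c (n + t) ≠ c n) (w : List ℤ) :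
    ∀ n : ℤ, (∀ s ∈ w, ∀ n, c (n + s) ≠ c n) →
      walk c w (n + t) - walk c w n = del c t (n + w.sum) - del c t n := by
  induction w with
  | nil => intro n _; simp [walk]
  | cons s w ih =>
    intro n hw
    have h1 := ih (n + s) (fun x hx => hw x (List.mem_cons_of_mem _ hx))
    have h2 := cocycle c s t n (hw s (by simp)) ht
    simp only [walk, List.sum_cons]
    rw [show n + t + s = n + s + t by ring, show n + (s + w.sum) = n + s + w.sum by ring]
    linarith

lemma walk_cast (c : ℤ → ZMod 3) (w : List ℤ) :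
    ∀ n : ℤ, (∀ s ∈ w, ∀ n, c (n + s) ≠ c n) →
      ((walk c w n : ℤ) : ZMod 3) = c (n + w.sum) - c n := by
  induction w with
  | nil => intro n _; simp [walk]
  | cons s w ih =>
    intro n hw
    have h1 := ih (n + s) (fun x hx => hw x (List.mem_cons_of_mem _ hx))
    simp only [walk, List.sum_cons]
    push_cast
    rw [h1, del_cast c s n (hw s (by simp) n), show n + (s + w.sum) = n + s + w.sum by ring]
    ring

lemma walk_parity (c : ℤ → ZMod 3) (w : List ℤ) :
    ∀ n : ℤ, (walk c w n - w.length) % 2 = 0 := by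
  induction w with
  | nil => intro n; simp [walk]
  | cons s w ih =>
    intro n
    have h1 := ih (n + s)
    have h2 := del_cases c s n
    simp only [walk, List.length_cons]
    push_cast
    omega

lemma walk_bound (c : ℤ → ZMod 3) (w : List ℤ) :
    ∀ n : ℤ, |walk c w n| ≤ w.length := by
  induction w with
  | nil => intro n; simp [walk]
  | cons s w ih =>
    intro n
    have h1 := ih (n + s)
    have h2 := del_cases c s n
    simp only [walk, List.length_cons]
    push_cast
    rw [abs_le] at h1 ⊢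
    omega

/-- Potential along the multiples of `d`. -/
def pot (c : ℤ → ZMod 3) (w : List ℤ) (d : ℤ) (j : ℕ) : ℤ :=
  ∑ i ∈ Finset.range j, walk c w (d * i)

lemma pot_succ (c : ℤ → ZMod 3) (w : List ℤ) (d : ℤ) (j : ℕ) :
    pot c w d (j + 1) = pot c w d j + walk c w (d * j) := by
  unfold pot; rw [Finset.sum_range_succ]

lemma pot_lip (c : ℤ → ZMod 3) (w : List ℤ) (d : ℤ) (j i : ℕ) :
    |pot c w d (j + i) - pot c w d j| ≤ i * w.length := by
  induction i with
  | zero => simp
  | succ i ih =>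
    rw [← add_assoc, pot_succ]
    have h := walk_bound c w (d * ((j + i : ℕ) : ℤ))
    rw [abs_le] at h ih ⊢
    push_cast at *
    constructor <;> nlinarith

lemma pot_cast (c : ℤ → ZMod 3) (w : List ℤ) (d : ℤ) (hw : ∀ s ∈ w, ∀ n, c (n + s) ≠ c n)
    (hd : w.sum = d) (j : ℕ) : ((pot c w d j : ℤ) : ZMod 3) = c (d * j) - c 0 := by
  induction j with
  | zero => simp [pot]
  | succ j ih =>
    rw [pot_succ]
    push_cast
    rw [ih, walk_cast c w _ hw, hd]
    rw [show d * (j : ℤ) + d = d * ((j : ℤ) + 1) by ring]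
    ring

lemma pot_parity (c : ℤ → ZMod 3) (w : List ℤ) (d : ℤ) (j : ℕ) :
    (pot c w d j - j * w.length) % 2 = 0 := by
  induction j with
  | zero => simp [pot]
  | succ j ih =>
    rw [pot_succ]
    have h := walk_parity c w (d * j)
    push_cast
    have : (((j : ℤ) + 1) * (w.length : ℤ)) = j * w.length + w.length := by ring
    rw [this]
    omega

lemma pot_period (c : ℤ → ZMod 3) (w : List ℤ) (d : ℤ) (hw : ∀ s ∈ w, ∀ n, c (n + s) ≠ c n)
    (hd : w.sum = d) (q : ℕ) (hs : ∀ n, c (n + d * q) ≠ c n) (j : ℕ) :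
    pot c w d (j + q) - pot c w d j - del c (d * q) (d * j)
      = pot c w d q - del c (d * q) 0 := by
  induction j with
  | zero => simp [pot]
  | succ j ih =>
    rw [← ih, show j + 1 + q = (j + q) + 1 by ring, pot_succ, pot_succ]
    have h := walk_shift c (d * q) hs w (d * j) hw
    rw [hd] at h
    push_cast
    rw [show d * ((j : ℤ) + q) = d * j + d * q by ring,
      show d * ((j : ℤ) + 1) = d * j + d by ring]
    linarith

lemma telescope (h : ℕ → ℤ) (q N : ℕ) :
    ∑ i ∈ Finset.range N, (h (i + q) - h i) = ∑ i ∈ Finset.range q, (h (N + i) - h i) := by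
  induction N with
  | zero => simp
  | succ N ih =>
    rw [Finset.sum_range_succ, ih]
    have h1 : ∑ i ∈ Finset.range q, (h (N + (i + 1)) - h (N + i)) = h (N + q) - h (N + 0) :=
      Finset.sum_range_sub (fun i => h (N + i)) q
    have h2 : ∑ i ∈ Finset.range q, (h (N + 1 + i) - h i)
        = ∑ i ∈ Finset.range q, (h (N + i) - h i)
          + ∑ i ∈ Finset.range q, (h (N + (i + 1)) - h (N + i)) := by
      rw [← Finset.sum_add_distrib]
      apply Finset.sum_congr rfl
      intro i _
      rw [show N + 1 + i = N + (i + 1) by ring]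
      ring
    rw [h2, h1]
    simp

lemma growth (c : ℤ → ZMod 3) (w : List ℤ) (d : ℤ) (hw : ∀ s ∈ w, ∀ n, c (n + s) ≠ c n)
    (hd : w.sum = d) (q : ℕ) (hs : ∀ n, c (n + d * q) ≠ c n) (N : ℕ) :
    |(q : ℤ) * pot c w d N - N * (pot c w d q - del c (d * q) 0)|
      ≤ N + 2 * q * (q * w.length) := by
  set κ := pot c w d q - del c (d * q) 0 with hκ
  have h1 : ∑ i ∈ Finset.range N, (pot c w d (i + q) - pot c w d i)
      = ∑ i ∈ Finset.range N, (del c (d * q) (d * i)) + N * κ := by
    have : ∀ i ∈ Finset.range N, pot c w d (i + q) - pot c w d i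
        = del c (d * q) (d * i) + κ := by
      intro i _
      have := pot_period c w d hw hd q hs i
      linarith
    rw [Finset.sum_congr rfl this, Finset.sum_add_distrib]
    simp
  have h2 : |∑ i ∈ Finset.range N, (del c (d * q) (d * i))| ≤ N := by
    refine (Finset.abs_sum_le_sum_abs _ _).trans ?_
    have : ∀ i ∈ Finset.range N, |del c (d * q) (d * i)| ≤ 1 := by
      intro i _
      rcases del_cases c (d * q) (d * i) with h | h <;> rw [h] <;> norm_num
    refine (Finset.sum_le_sum this).trans ?_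
    simp
  rw [telescope] at h1
  have h3 : |∑ i ∈ Finset.range q, (pot c w d (N + i) - pot c w d i) - q * pot c w d N|
      ≤ q * (2 * (q * w.length)) := by
    have e : ∑ i ∈ Finset.range q, (pot c w d (N + i) - pot c w d i) - q * pot c w d N
        = ∑ i ∈ Finset.range q, ((pot c w d (N + i) - pot c w d N)
          - (pot c w d (0 + i) - pot c w d 0)) := by
      rw [show (q : ℤ) * pot c w d N = ∑ i ∈ Finset.range q, pot c w d N by simp]
      rw [← Finset.sum_sub_distrib]
      apply Finset.sum_congr rfl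
      intro i _
      rw [zero_add]
      simp [pot]
      ring
    rw [e]
    refine (Finset.abs_sum_le_sum_abs _ _).trans ?_
    have : ∀ i ∈ Finset.range q, |(pot c w d (N + i) - pot c w d N)
          - (pot c w d (0 + i) - pot c w d 0)| ≤ 2 * (q * w.length) := by
      intro i hi
      have hi' : (i : ℤ) ≤ q := by exact_mod_cast (Finset.mem_range.mp hi).le
      have h4 := pot_lip c w d N i
      have h5 := pot_lip c w d 0 i
      have h6 : (i : ℤ) * w.length ≤ q * w.length :=
        mul_le_mul_of_nonneg_right hi' (by positivity)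
      rw [abs_le] at *
      constructor <;> linarith
    refine (Finset.sum_le_sum this).trans ?_
    simp
  rw [h1] at h3
  rw [abs_le] at *
  constructor <;> nlinarith

lemma sum_map_neg' (w : List ℤ) : (w.map (fun z => -z)).sum = -w.sum := by
  induction w with
  | nil => simp
  | cons z w ih => rw [List.map_cons, List.sum_cons, List.sum_cons, ih]; ring

/-- Three-coloured Cayley graphs of the integers: the forbidden differences miss a Bohr set. -/
lemma colour_case (c : ℤ → ZMod 3) :
    ∃ a b : ℝ, ∀ s : ℤ, (∀ n, c (n + s) ≠ c n) →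
      ¬ (|a * s - round (a * s)| ≤ 1 / 6 ∧ |b * s - round (b * s)| ≤ 1 / 6) := by
  classical
  set S : Set ℤ := {s | ∀ n, c (n + s) ≠ c n} with hS
  have hneg : ∀ s ∈ S, -s ∈ S := by
    intro s hs n
    have := hs (n + -s)
    rw [show n + -s + s = n by ring] at this
    exact this.symm
  have h0 : (0 : ℤ) ∉ S := by intro h; exact h 0 (by simp)
  obtain ⟨d, hd⟩ := Int.subgroup_cyclic (AddSubgroup.closure S)
  have hmul : ∀ s ∈ S, ∃ q : ℤ, s = d * q := by
    intro s hs
    have : s ∈ AddSubgroup.closure {d} := by rw [← hd]; exact AddSubgroup.subset_closure hs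
    rw [AddSubgroup.mem_closure_singleton] at this
    obtain ⟨q, hq⟩ := this
    exact ⟨q, by rw [← hq]; simp [mul_comm]⟩
  by_cases hd0 : d = 0
  · refine ⟨0, 0, ?_⟩
    intro s hs
    obtain ⟨q, hq⟩ := hmul s hs
    rw [hd0, zero_mul] at hq
    exact absurd (hq ▸ hs) h0
  -- a word for d
  have hword : ∃ w : List ℤ, (∀ s ∈ w, s ∈ S) ∧ w.sum = d := by
    have hdm : d ∈ AddSubgroup.closure S := by
      rw [hd]; exact AddSubgroup.subset_closure (by simp)
    refine AddSubgroup.closure_induction (p := fun x _ => ∃ w : List ℤ, (∀ s ∈ w, s ∈ S) ∧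
      w.sum = x) ?_ ?_ ?_ ?_ hdm
    · intro x hx; exact ⟨[x], by simpa using hx, by simp⟩
    · exact ⟨[], by simp, by simp⟩
    · rintro x y _ _ ⟨w1, h1, rfl⟩ ⟨w2, h2, rfl⟩
      refine ⟨w1 ++ w2, ?_, by simp⟩
      intro s hs
      rcases List.mem_append.mp hs with h | h
      · exact h1 s h
      · exact h2 s h
    · rintro x _ ⟨w1, h1, rfl⟩
      refine ⟨w1.map (fun z => -z), ?_, ?_⟩
      · intro s hs
        obtain ⟨z, hz, rfl⟩ := List.mem_map.mp hs
        exact hneg z (h1 z hz)
      · exact sum_map_neg' w1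
  obtain ⟨w, hw, hwd⟩ := hword
  have hw' : ∀ s ∈ w, ∀ n, c (n + s) ≠ c n := hw
  set k : ℕ := w.length with hk
  -- cluster point of averages
  let x : ℕ → ℝ := fun N => (pot c w d N : ℝ) / N
  have hx : ∀ N, x N ∈ Set.Icc (-(k : ℝ)) k := by
    intro N
    rcases Nat.eq_zero_or_pos N with h | h
    · simp [x, h]
    · have h1 := pot_lip c w d 0 N
      rw [zero_add] at h1
      have h2 : pot c w d 0 = 0 := by simp [pot]
      rw [h2, sub_zero] at h1
      have h3 : |(pot c w d N : ℝ)| ≤ N * k := by exact_mod_cast h1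
      have hN : (0 : ℝ) < N := by exact_mod_cast h
      rw [abs_le] at h3
      simp only [x, Set.mem_Icc]
      constructor
      · rw [le_div_iff₀ hN]; linarith
      · rw [div_le_iff₀ hN]; linarith
  obtain ⟨L, -, φ, hφ, hL⟩ := tendsto_subseq_of_bounded (Metric.isBounded_Icc _ _) hx
  have key : ∀ q : ℕ, (∀ n, c (n + d * q) ≠ c n) →
      |(q : ℝ) * L - ((pot c w d q - del c (d * q) 0 : ℤ) : ℝ)| ≤ 1 := by
    intro q hq
    set κ : ℤ := pot c w d q - del c (d * q) 0 with hκ
    have hlim : Filter.Tendsto (fun N => |(q : ℝ) * x (φ N) - (κ : ℝ)|) Filter.atTop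
        (nhds |(q : ℝ) * L - (κ : ℝ)|) :=
      ((hL.const_mul (q : ℝ)).sub_const (κ : ℝ)).abs
    have hlim2 : Filter.Tendsto (fun N => (1 : ℝ) + (2 * q * (q * k) : ℝ) / (φ N : ℝ))
        Filter.atTop (nhds (1 + 0)) := by
      apply Filter.Tendsto.const_add
      apply Filter.Tendsto.div_atTop tendsto_const_nhds
      exact tendsto_natCast_atTop_atTop.comp hφ.tendsto_atTop
    rw [add_zero] at hlim2
    refine le_of_tendsto_of_tendsto hlim hlim2 ?_
    filter_upwards [Filter.eventually_ge_atTop 1] with N hN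
    have hpos : 0 < φ N := lt_of_lt_of_le (by omega) (hφ.le_apply (x := N))
    have hposR : (0 : ℝ) < φ N := by exact_mod_cast hpos
    have hg := growth c w d hw' hwd q hq (φ N)
    have hgR : |(q : ℝ) * (pot c w d (φ N) : ℝ) - (φ N : ℝ) * (κ : ℝ)|
        ≤ (φ N : ℝ) + 2 * q * (q * k) := by
      rw [← hκ, ← hk] at hg
      exact_mod_cast hg
    have e1 : (q : ℝ) * x (φ N) - (κ : ℝ)
        = ((q : ℝ) * (pot c w d (φ N) : ℝ) - (φ N : ℝ) * (κ : ℝ)) / (φ N : ℝ) := by
      simp only [x]; field_simp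
    rw [e1, abs_div, abs_of_pos hposR, div_le_iff₀ hposR]
    refine hgR.trans (le_of_eq ?_)
    field_simp
  have hdR : (d : ℝ) ≠ 0 := by exact_mod_cast hd0
  -- positive multiples
  have main : ∀ q : ℕ, (∀ n, c (n + d * q) ≠ c n) →
      ∀ r1 r2 : ℤ, ¬ (|((k : ℝ) - L) / (2 * d) * ((d * q : ℤ) : ℝ) - r1| ≤ 1 / 6 ∧
        |L / (3 * d) * ((d * q : ℤ) : ℝ) - r2| ≤ 1 / 6) := by
    rintro q hq r1 r2 ⟨ha, hb⟩
    have hkey := key q hq
    set κ : ℤ := pot c w d q - del c (d * q) 0 with hκ
    set l : ℝ := (q : ℝ) * L - (κ : ℝ) with hl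
    -- divisibility by three
    have h3 : (3 : ℤ) ∣ κ := by
      have h31 := pot_cast c w d hw' hwd q
      have h32 := del_cast c (d * q) 0 (hq 0)
      have : ((κ : ℤ) : ZMod 3) = 0 := by
        rw [hκ]; push_cast; rw [h31, h32]; simp
      exact_mod_cast (ZMod.intCast_zmod_eq_zero_iff_dvd κ 3).mp this
    obtain ⟨m1, hm1⟩ := h3
    -- parity
    have h2 : ∃ m2 : ℤ, (q : ℤ) * k - κ = 1 + 2 * m2 := by
      have h21 := pot_parity c w d q
      have h22 := del_cases c (d * q) 0
      rw [← hk] at h21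
      refine ⟨((q : ℤ) * k - κ - 1) / 2, ?_⟩
      rw [hκ]
      generalize (q : ℤ) * (k : ℤ) = z at *
      omega
    obtain ⟨m2, hm2⟩ := h2
    have eb : L / (3 * d) * ((d * q : ℤ) : ℝ) = l / 3 + m1 := by
      have hm1R : (κ : ℝ) = 3 * m1 := by exact_mod_cast hm1
      push_cast
      rw [hl, hm1R]
      field_simp
      ring
    have ea : ((k : ℝ) - L) / (2 * d) * ((d * q : ℤ) : ℝ) = (1 - l) / 2 + m2 := by
      have hm2R : (q : ℝ) * k - κ = 1 + 2 * m2 := by exact_mod_cast hm2
      push_cast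
      rw [hl]
      field_simp
      linarith
    rw [ea] at ha
    rw [eb] at hb
    rw [abs_le] at ha hb hkey
    -- r2 = m1
    have hr2 : r2 = m1 := by
      have hA : ((r2 - m1 : ℤ) : ℝ) < 1 := by push_cast; linarith [hb.1, hkey.2]
      have hB : (-1 : ℝ) < ((r2 - m1 : ℤ) : ℝ) := by push_cast; linarith [hb.2, hkey.1]
      have hA' : r2 - m1 < 1 := by exact_mod_cast hA
      have hB' : -1 < r2 - m1 := by exact_mod_cast hB
      omega
    rw [hr2] at hb
    have hl1 : l ≤ 1 / 2 := by linarith [hb.2]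
    have hl2 : -(1 / 2) ≤ l := by linarith [hb.1]
    have hA : ((r1 - m2 : ℤ) : ℝ) < 1 := by push_cast; linarith [ha.1]
    have hB : (0 : ℝ) < ((r1 - m2 : ℤ) : ℝ) := by push_cast; linarith [ha.2]
    have hA' : r1 - m2 < 1 := by exact_mod_cast hA
    have hB' : 0 < r1 - m2 := by exact_mod_cast hB
    omega
  refine ⟨((k : ℝ) - L) / (2 * d), L / (3 * d), ?_⟩
  rintro s hs ⟨ha, hb⟩
  obtain ⟨q, hq⟩ := hmul s hs
  rcases le_total 0 q with hq0 | hq0
  · obtain ⟨q', rfl⟩ := Int.eq_ofNat_of_zero_le hq0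
    subst hq
    exact main q' hs _ _ ⟨ha, hb⟩
  · obtain ⟨q', hq'⟩ := Int.eq_ofNat_of_zero_le (show 0 ≤ -q by omega)
    have hs' : ∀ n, c (n + d * q') ≠ c n := by
      have : d * (q' : ℤ) = -s := by rw [hq, ← hq']; ring
      rw [this]
      exact hneg s hs
    have e : ((d * q' : ℤ) : ℝ) = -(s : ℝ) := by
      have : d * (q' : ℤ) = -s := by rw [hq, ← hq']; ring
      rw [this]; push_cast; ring
    refine main q' hs' (-round (((k : ℝ) - L) / (2 * d) * s)) (-round (L / (3 * d) * s)) ?_
    rw [e]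
    constructor
    · rw [← abs_neg]
      push_cast
      rw [show -((↑k - L) / (2 * ↑d) * -(s : ℝ) - -(round ((↑k - L) / (2 * ↑d) * (s : ℝ)) : ℝ))
        = ((↑k - L) / (2 * ↑d) * (s : ℝ) - (round ((↑k - L) / (2 * ↑d) * (s : ℝ)) : ℝ)) by ring]
      exact ha
    · rw [← abs_neg]
      push_cast
      rw [show -(L / (3 * ↑d) * -(s : ℝ) - -(round (L / (3 * ↑d) * (s : ℝ)) : ℝ))
        = (L / (3 * ↑d) * (s : ℝ) - (round (L / (3 * ↑d) * (s : ℝ)) : ℝ)) by ring]
      exact hb

/-- If at most three translates of a set `A` of integers cover the integers, then `A - A`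
contains a Bohr neighbourhood of zero of dimension two and radius `1/6`. -/
theorem result (A : Set ℤ) (F : Finset ℤ) (hF : F.card ≤ 3)
    (hA : ∀ n : ℤ, ∃ a ∈ A, ∃ f ∈ F, n = a + f) :
    ∃ θ : Fin 2 → ℝ, ∀ n : ℤ,
      (∀ i : Fin 2, |θ i * (n : ℝ) - ((round (θ i * (n : ℝ)) : ℤ) : ℝ)| ≤ 1 / 6) →
      ∃ a ∈ A, ∃ b ∈ A, n = a - b := by
  classical
  have hcard : Fintype.card F ≤ Fintype.card (ZMod 3) := by
    rw [ZMod.card]; simpa using hF
  obtain ⟨e⟩ := Function.Embedding.nonempty_of_card_le hcard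
  choose a ha f hf haf using hA
  let c : ℤ → ZMod 3 := fun n => e ⟨f n, hf n⟩
  obtain ⟨u, v, huv⟩ := colour_case c
  refine ⟨![u, v], ?_⟩
  intro n hn
  by_contra hcon
  have hgood : ∀ m, c (m + n) ≠ c m := by
    intro m hm
    have h1 : (⟨f (m + n), hf (m + n)⟩ : F) = ⟨f m, hf m⟩ := e.injective hm
    have h2 : f (m + n) = f m := congrArg Subtype.val h1
    apply hcon
    refine ⟨a (m + n), ha _, a m, ha _, ?_⟩
    have h3 := haf (m + n)
    have h4 := haf m
    rw [h2] at h3
    linarith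
  exact huv n hgood ⟨by simpa using hn 0, by simpa using hn 1⟩

end Pool.Agent.Results.MP_83445a_co.ThreeTranslates
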